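import Pool.Agent.ZTO.Stmts

/-!
# ZTO: KAC, `Ker G (p ^ k)` acts trivially on `F j / F (j + k)`
-/

set_option autoImplicit false

open scoped BigOperators

namespace Pool.Agent.ZTO.H90

section fil

variable {G : Type} [Group G] {p : ℕ} {ψ : G →* G} {V : Type} [AddCommGroup V]
  {F : ℕ → AddSubgroup V} {t : V →+ V} {ρ : G →* AddMonoid.End V} {x : V}

theorem it_mem (hF : Fil p ψ F t ρ x) (i : ℕ) :
    (⇑t)^[i] x ∈ F i ∧ p • (⇑t)^[i] x ∈ F (i + 1) := by
  induction i with
  | zero =>
    refine ⟨?_, hF.ord x⟩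
    rw [hF.top]
    exact AddSubgroup.mem_top _
  | succ i ih =>
    rw [Function.iterate_succ_apply']
    refine ⟨(hF.tf i _).2 ih.1, ?_⟩
    rw [← map_nsmul]
    exact (hF.tf (i + 1) _).2 ih.2

theorem dig (hF : Fil p ψ F t ρ x) (hp : 0 < p) (j k : ℕ) : ∀ v ∈ F j, ∃ r : ℕ → ℕ,
    (∀ l, r l < p) ∧ v - ∑ l ∈ Finset.range k, r l • (⇑t)^[j + l] x ∈ F (j + k) := by
  induction k with
  | zero =>
    intro v hv
    refine ⟨fun _ => 0, fun _ => hp, ?_⟩
    rw [Finset.range_zero, Finset.sum_empty, sub_zero, add_zero]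
    exact hv
  | succ k ih =>
    intro v hv
    obtain ⟨r, hr, h1⟩ := ih v hv
    obtain ⟨m, hm⟩ := hF.gen (j + k) _ h1
    refine ⟨fun l => if l = k then m % p else r l, fun l => ?_, ?_⟩
    · show (if l = k then m % p else r l) < p
      split_ifs
      · exact Nat.mod_lt _ hp
      · exact hr l
    · rw [Finset.sum_range_succ]
      show v - (∑ l ∈ Finset.range k, (if l = k then m % p else r l) • (⇑t)^[j + l] x +
        (if k = k then m % p else r k) • (⇑t)^[j + k] x) ∈ F (j + (k + 1))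
      rw [if_pos rfl]
      have e1 : ∑ l ∈ Finset.range k, (if l = k then m % p else r l) • (⇑t)^[j + l] x =
          ∑ l ∈ Finset.range k, r l • (⇑t)^[j + l] x := by
        refine Finset.sum_congr rfl fun l hl => ?_
        rw [if_neg (by
          have := Finset.mem_range.1 hl
          omega)]
      rw [e1]
      have h2 := (F (j + k + 1)).nsmul_mem (it_mem hF (j + k)).2 (m / p)
      have e2 : m • (⇑t)^[j + k] x =
          (m % p) • (⇑t)^[j + k] x + (m / p) • (p • (⇑t)^[j + k] x) := by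
        rw [← mul_nsmul', ← add_nsmul]
        congr 1
        rw [add_comm]
        exact (Nat.div_add_mod' m p).symm
      have h3 := (F (j + k + 1)).add_mem hm h2
      have e3 : v - ∑ l ∈ Finset.range k, r l • (⇑t)^[j + l] x - m • (⇑t)^[j + k] x +
          (m / p) • (p • (⇑t)^[j + k] x) =
          v - (∑ l ∈ Finset.range k, r l • (⇑t)^[j + l] x + (m % p) • (⇑t)^[j + k] x) := by
        rw [e2]
        abel
      rw [e3] at h3
      exact h3

end fil

/-- KAC -/
theorem kac (hK : KerStmt) : KacStmt := by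
  intro G _ _ p ψ V _ F t ρ x hp hF k g hg j v hv
  have hmul : ∀ (a b : G) (w : V), ρ (a * b) w = ρ a (ρ b w) := fun a b w => by
    rw [map_mul]
    rfl
  have hone : ∀ w : V, ρ 1 w = w := fun w => by
    rw [map_one]
    rfl
  let act : G → (V ⧸ F (j + k)) → (V ⧸ F (j + k)) := fun g =>
    QuotientAddGroup.map (F (j + k)) (F (j + k)) (ρ g) (fun w hw => hF.act g (j + k) w hw)
  have hact : ∀ (a : G) (w : V), act a (QuotientAddGroup.mk w) = QuotientAddGroup.mk (ρ a w) :=
    fun a w => rfl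
  let α : Type := {q : V ⧸ F (j + k) // ∃ w ∈ F j, q = QuotientAddGroup.mk w}
  let f0 : G → α → α := fun a q => ⟨act a q.1, by
    obtain ⟨w, hw, h1⟩ := q.2
    exact ⟨ρ a w, hF.act a j w hw, by rw [h1, hact]⟩⟩
  have h0mul : ∀ (a b : G) (q : α), f0 (a * b) q = f0 a (f0 b q) := by
    intro a b q
    apply Subtype.ext
    obtain ⟨w, hw, h1⟩ := q.2
    show act (a * b) q.1 = act a (act b q.1)
    rw [h1, hact, hact, hact, hmul]
  have h0one : ∀ q : α, f0 1 q = q := by
    intro q
    apply Subtype.ext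
    obtain ⟨w, hw, h1⟩ := q.2
    show act 1 q.1 = q.1
    rw [h1, hact, hone]
  let f : G →* Equiv.Perm α :=
    { toFun := fun a => ⟨f0 a, f0 a⁻¹, fun q => by rw [← h0mul, inv_mul_cancel, h0one], fun q => by
        rw [← h0mul, mul_inv_cancel, h0one]⟩
      map_one' := Equiv.ext fun q => h0one q
      map_mul' := fun a b => Equiv.ext fun q => h0mul a b q }
  -- the digits
  let dg : (Fin k → Fin p) → α := fun r => ⟨QuotientAddGroup.mk (∑ l : Fin k,
    (r l : ℕ) • (⇑t)^[j + (l : ℕ)] x), ⟨_, (F j).sum_mem fun l _ =>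
      (F j).nsmul_mem (by
        have hanti : ∀ i, F (j + i) ≤ F j := by
          intro i
          induction i with
          | zero => exact le_rfl
          | succ i ih => exact (hF.anti (j + i)).trans ih
        exact hanti _ (it_mem hF _).1) _, rfl⟩⟩
  have hsur : Function.Surjective dg := by
    rintro ⟨q, w, hw, hq⟩
    obtain ⟨r, hr, h1⟩ := dig hF hp.pos j k w hw
    refine ⟨fun l => ⟨r l, hr l⟩, Subtype.ext ?_⟩
    show (QuotientAddGroup.mk (∑ l : Fin k, r l • (⇑t)^[j + (l : ℕ)] x) : V ⧸ F (j + k)) = q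
    rw [hq, QuotientAddGroup.eq, neg_add_eq_sub,
      Fin.sum_univ_eq_sum_range (fun l => r l • (⇑t)^[j + l] x) k]
    exact h1
  have hfin : Finite α := Finite.of_surjective dg hsur
  have hcard : Nat.card α ≤ p ^ k := by
    have h1 := Nat.card_le_card_of_surjective dg hsur
    rw [Nat.card_fun, Nat.card_fin, Nat.card_fin] at h1
    exact h1
  have h1 := (hK G (p ^ k)).2.2.2.1 α f hcard g hg
  have h2 : f0 g ⟨QuotientAddGroup.mk v, v, hv, rfl⟩ = ⟨QuotientAddGroup.mk v, v, hv, rfl⟩ :=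
    congrArg (fun e : Equiv.Perm α => e ⟨QuotientAddGroup.mk v, v, hv, rfl⟩) h1
  have h3 : (QuotientAddGroup.mk (ρ g v) : V ⧸ F (j + k)) = QuotientAddGroup.mk v :=
    congrArg Subtype.val h2
  rw [eq_comm, QuotientAddGroup.eq, neg_add_eq_sub] at h3
  exact h3

end Pool.Agent.ZTO.H90
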